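import Pool.Agent.Helper60.FF.StmtsC

/-!
# EDG: the constants on the edges
-/

set_option autoImplicit false

namespace Pool.Agent.Helper60.FF

open Polynomial

section

variable {p : ℕ} [hp : Fact p.Prime] {n : ℕ}

/-- the condition on the radius -/
def edg_good (K : KD p n) (b ϖ : K.A) : Prop :=
  ϖ ≠ 0 ∧ ∀ b' ∈ Sg K, b' ≠ b → ‖(b' : ℂ_[p]) - b‖ ≠ ‖(ϖ : ℂ_[p])‖

/-- the points of `Sg` in the open disc -/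
def edg_sub (K : KD p n) (b : K.A) (r : ℝ) : Set K.A :=
  {b' | b' ∈ Sg K ∧ ‖(b' : ℂ_[p]) - b‖ < r}

theorem edg_CT_ne (K : KD p n) (b ϖ : ℂ_[p]) (φ : Polynomial (RF p)) (h : CT K b ϖ φ) : φ ≠ 0 := by
  intro h0
  apply h.1
  rw [h0, Polynomial.map_zero]

theorem edg_coe_ne {A : Subfield ℂ_[p]} {ϖ : A} (h : ϖ ≠ 0) : (ϖ : ℂ_[p]) ≠ 0 := by
  intro h0
  apply h
  exact Subtype.ext h0

theorem edg_exists (hL2 : ST_L2) (hP : PP p n) (K : KD p n) (b ϖ : K.A) (h : edg_good K b ϖ) :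
    ∃ φ : Polynomial (RF p), CT K b ϖ φ := by
  refine hL2 p n hP K b ϖ h.1 0 ?_
  intro b' hb' hle
  have hϖ : (ϖ : ℂ_[p]) ≠ 0 := edg_coe_ne h.1
  have hϖ' : 0 < ‖(ϖ : ℂ_[p])‖ := norm_pos_iff.2 hϖ
  rw [res_eq_zero hle]
  by_cases hbb : b' = b
  · rw [hbb, sub_self, zero_div, norm_zero]
    exact zero_lt_one
  · have h1 := h.2 b' hb' hbb
    rw [norm_div] at hle ⊢
    rw [div_le_one hϖ'] at hle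
    rw [div_lt_one hϖ']
    exact lt_of_le_of_ne hle h1

theorem edg_mid (K : KD p n) (b ϖ₁ ϖ₂ ϖ : K.A) (h₂ : edg_good K b ϖ₂) (h₁ : ϖ₁ ≠ 0)
    (hs : edg_sub K b ‖(ϖ₁ : ℂ_[p])‖ = edg_sub K b ‖(ϖ₂ : ℂ_[p])‖)
    (hle : ‖(ϖ₁ : ℂ_[p])‖ ≤ ‖(ϖ : ℂ_[p])‖) (hle' : ‖(ϖ : ℂ_[p])‖ ≤ ‖(ϖ₂ : ℂ_[p])‖) :
    edg_good K b ϖ := by
  have h0 : (ϖ₁ : ℂ_[p]) ≠ 0 := edg_coe_ne h₁
  refine ⟨?_, ?_⟩
  · intro hϖ
    rw [hϖ] at hle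
    have h3 : ((0 : K.A) : ℂ_[p]) = 0 := rfl
    rw [h3, norm_zero] at hle
    exact absurd (norm_pos_iff.2 h0) (not_lt.2 hle)
  · intro b' hb' hne heq
    have h4 := h₂.2 b' hb' hne
    have h5 : b' ∈ edg_sub K b ‖(ϖ₂ : ℂ_[p])‖ := by
      refine ⟨hb', ?_⟩
      rw [heq] at h4 ⊢
      exact lt_of_le_of_ne hle' h4
    rw [← hs] at h5
    have h6 := h5.2
    rw [heq] at h6
    exact absurd h6 (not_lt.2 hle)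

theorem edg_lt (hL2 : ST_L2) (hL3 : ST_L3) (hP : PP p n) (K : KD p n) (b ϖ₁ ϖ₂ : K.A)
    (h₁ : edg_good K b ϖ₁) (h₂ : edg_good K b ϖ₂) (hlt : ‖(ϖ₁ : ℂ_[p])‖ < ‖(ϖ₂ : ℂ_[p])‖)
    (hs : edg_sub K b ‖(ϖ₁ : ℂ_[p])‖ = edg_sub K b ‖(ϖ₂ : ℂ_[p])‖)
    (φ₁ φ₂ : Polynomial (RF p)) (hφ₁ : CT K b ϖ₁ φ₁) (hφ₂ : CT K b ϖ₂ φ₂) :
    ∃ s : RF p, s ≠ 0 ∧ φ₂ = C s * φ₁ := by
  refine hL3 p n hP K b ϖ₁ ϖ₂ h₁.1 hlt ?_ φ₁ φ₂ hφ₁ hφ₂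
  intro ϖ hle hle'
  exact edg_exists hL2 hP K b ϖ (edg_mid K b ϖ₁ ϖ₂ ϖ h₂ h₁.1 hs hle hle')

theorem edg_same (hL2 : ST_L2) (hL3 : ST_L3) (hDIC : ST_DIC) (hP : PP p n) (K : KD p n)
    (b ϖ₁ ϖ₂ : K.A) (h₁ : edg_good K b ϖ₁) (h₂ : edg_good K b ϖ₂)
    (hs : edg_sub K b ‖(ϖ₁ : ℂ_[p])‖ = edg_sub K b ‖(ϖ₂ : ℂ_[p])‖)
    (φ : Polynomial (RF p)) (hφ : CT K b ϖ₁ φ) : CT K b ϖ₂ φ := by
  obtain ⟨hD1, -, hD3, -⟩ := hDIC p n hP K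
  rcases lt_trichotomy ‖(ϖ₁ : ℂ_[p])‖ ‖(ϖ₂ : ℂ_[p])‖ with hlt | heq | hgt
  · obtain ⟨φ₂, hφ₂⟩ := edg_exists hL2 hP K b ϖ₂ h₂
    obtain ⟨s, hs0, hsφ⟩ := edg_lt hL2 hL3 hP K b ϖ₁ ϖ₂ h₁ h₂ hlt hs φ φ₂ hφ hφ₂
    have h3 := hD3 b ϖ₂ φ₂ s⁻¹ (inv_ne_zero hs0) hφ₂
    have h4 : C s⁻¹ * φ₂ = φ := by
      rw [hsφ, ← mul_assoc, ← C_mul, inv_mul_cancel₀ hs0, C_1, one_mul]
    rw [h4] at h3
    exact h3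
  · refine (hD1 b ϖ₁ b ϖ₂ h₁.1 h₂.1 heq ?_ φ hφ).1
    rw [sub_self, norm_zero]
    exact norm_nonneg _
  · obtain ⟨φ₂, hφ₂⟩ := edg_exists hL2 hP K b ϖ₂ h₂
    obtain ⟨s, hs0, hsφ⟩ := edg_lt hL2 hL3 hP K b ϖ₂ ϖ₁ h₂ h₁ hgt hs.symm φ₂ φ hφ₂ hφ
    have h3 := hD3 b ϖ₂ φ₂ s hs0 hφ₂
    rw [← hsφ] at h3
    exact h3

theorem edg_key (hL2 : ST_L2) (hL3 : ST_L3) (hDIC : ST_DIC) (hP : PP p n) (K : KD p n)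
    (b : K.A) (U : Set K.A) : ∃ φ : Polynomial (RF p), φ ≠ 0 ∧
      ∀ ϖ : K.A, edg_good K b ϖ → edg_sub K b ‖(ϖ : ℂ_[p])‖ = U → CT K b ϖ φ := by
  by_cases hex : ∃ ϖ : K.A, edg_good K b ϖ ∧ edg_sub K b ‖(ϖ : ℂ_[p])‖ = U
  · obtain ⟨ϖ₀, hg, hU⟩ := hex
    obtain ⟨φ, hφ⟩ := edg_exists hL2 hP K b ϖ₀ hg
    refine ⟨φ, edg_CT_ne K b ϖ₀ φ hφ, ?_⟩
    intro ϖ hgϖ hUϖ
    exact edg_same hL2 hL3 hDIC hP K b ϖ₀ ϖ hg hgϖ (hU.trans hUϖ.symm) φ hφ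
  · refine ⟨1, one_ne_zero, ?_⟩
    intro ϖ hgϖ hUϖ
    exact absurd ⟨ϖ, hgϖ, hUϖ⟩ hex

theorem edg_min (K : KD p n) (hf : (Sg K).Finite) (b : K.A) :
    ∃ r₀ : ℝ, 0 < r₀ ∧ ∀ b' ∈ Sg K, b' ≠ b → r₀ ≤ ‖(b' : ℂ_[p]) - b‖ := by
  have hf' : (Sg K \ {b}).Finite := hf.subset Set.sdiff_subset
  rcases Set.eq_empty_or_nonempty (Sg K \ {b}) with he | hne
  · refine ⟨1, one_pos, ?_⟩
    intro b' hb' hne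
    have : b' ∈ Sg K \ {b} := ⟨hb', hne⟩
    rw [he] at this
    exact absurd this (Set.notMem_empty b')
  · obtain ⟨b₀, hb₀, hmin⟩ := Set.exists_min_image (Sg K \ {b})
      (fun b' : K.A => ‖(b' : ℂ_[p]) - b‖) hf' hne
    refine ⟨‖(b₀ : ℂ_[p]) - b‖, ?_, ?_⟩
    · rw [norm_pos_iff]
      intro h0
      apply hb₀.2
      exact Subtype.ext (sub_eq_zero.1 h0)
    · intro b' hb' hne'
      exact hmin b' ⟨hb', hne'⟩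

end

/-- EDG: the constants on the edges -/
theorem st_EDG (hL2 : ST_L2) (hL3 : ST_L3) (hDIC : ST_DIC) (hSGF : ST_SGF) : ST_EDG := by
  intro p n hp hP K
  have hf : (Sg K).Finite := (hSGF p n K).1
  have hkey := edg_key hL2 hL3 hDIC hP K
  choose F hF0 hF using hkey
  refine ⟨(fun q : K.A × Set K.A => F q.1 q.2) '' (Sg K ×ˢ 𝒫 (Sg K)), ?_, ?_, ?_, ?_⟩
  · exact (hf.prod hf.powerset).image _
  · rintro φ ⟨q, -, rfl⟩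
    exact hF0 q.1 q.2
  · intro b hb ϖ hϖ hg
    refine ⟨F b (edg_sub K b ‖(ϖ : ℂ_[p])‖), ?_, hF b _ ϖ ⟨hϖ, hg⟩ rfl⟩
    exact ⟨(b, edg_sub K b ‖(ϖ : ℂ_[p])‖), ⟨hb, fun x hx => hx.1⟩, rfl⟩
  · intro b hb
    obtain ⟨r₀, hr₀, hmin⟩ := edg_min K hf b
    refine ⟨F b {b}, ⟨(b, {b}), ⟨hb, ?_⟩, rfl⟩, r₀, hr₀, ?_⟩
    · exact Set.singleton_subset_iff.2 hb
    · intro ϖ hϖ hlt
      have hpos : 0 < ‖(ϖ : ℂ_[p])‖ := norm_pos_iff.2 (edg_coe_ne hϖ)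
      refine hF b {b} ϖ ⟨hϖ, ?_⟩ ?_
      · intro b' hb' hne heq
        have h1 := hmin b' hb' hne
        rw [heq] at h1
        exact absurd hlt (not_lt.2 h1)
      · ext x
        constructor
        · rintro ⟨hx, hxl⟩
          by_contra hne
          have h1 := hmin x hx hne
          exact absurd (hxl.trans hlt) (not_lt.2 h1)
        · intro hx
          rw [Set.mem_singleton_iff] at hx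
          rw [hx]
          refine ⟨hb, ?_⟩
          rw [sub_self, norm_zero]
          exact hpos

end Pool.Agent.Helper60.FF
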